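import Pool.Agent.Run7.h851.T.Iface
import Pool.Agent.H337R2.LZ.G4

/-!
# T-G4: the weight (port of Dim7/G4)
-/

open Polynomial Pool.Agent.H337R2

namespace Pool.Agent.Run7.h617.T.G4

noncomputable section

lemma logb {m n v : ℕ} (hn : 40 ≤ n) (hv : 2 * n < v) (hm : m ≤ v + 2 * n) :
    |Real.log (m.factorial : ℝ) - Psi m| ≤ 6 * Real.log (n + v) := by
  refine (Pool.Agent.LZ.G4_fac m).trans ?_
  have h1 : m + 2 ≤ (n + v) ^ 2 := by
    nlinarith
  have h2 : (m : ℝ) + 2 ≤ ((n : ℝ) + v) ^ 2 := by exact_mod_cast h1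
  have h3 := Real.log_le_log (by positivity) h2
  rw [Real.log_pow] at h3
  push_cast at h3
  linarith

end

end Pool.Agent.Run7.h617.T.G4

namespace Pool.Agent.Run7.h617.T

open Pool.Agent.Run7.h851.T

noncomputable section

/-- the weight -/
theorem t_G4_weight : St_G4_weight := by
  refine ⟨2000, by norm_num, fun n hn v hv => ?_⟩
  have e1 := G4.logb hn hv (show 4 * n ≤ v + 2 * n by omega)
  have e3 := G4.logb hn hv (show v + 2 * n ≤ v + 2 * n by omega)
  have e5 := G4.logb hn hv (show v - 2 * n ≤ v + 2 * n by omega)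
  have hn0 : (0 : ℝ) < n := by
    have : 0 < n := by omega
    exact_mod_cast this
  have hv0 : (0 : ℝ) < v := by
    have : 0 < v := by omega
    exact_mod_cast this
  have hvn : (2 : ℝ) * n + 1 ≤ v := by
    have : 2 * n + 1 ≤ v := by omega
    exact_mod_cast this
  have c1 : ((v - 2 * n : ℕ) : ℝ) = v - 2 * n := by
    rw [Nat.cast_sub (by omega)]; push_cast; ring
  have f1 : Real.log (((v - 2 * n).factorial : ℕ) : ℝ) =
      Real.log ((v : ℝ) - 2 * n) + Real.log (((v - 2 * n - 1).factorial : ℕ) : ℝ) := by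
    have : (v - 2 * n).factorial = (v - 2 * n) * (v - 2 * n - 1).factorial :=
      (Nat.mul_factorial_pred (by omega)).symm
    rw [this, Nat.cast_mul, c1, Real.log_mul (by linarith) (by positivity)]
  have hW : Real.log (wv n v) =
      64 * Real.log ((4 * n).factorial : ℝ) + (Real.log 2 + Real.log v) +
      64 * (Real.log ((v - 2 * n - 1).factorial : ℝ) - Real.log ((v + 2 * n).factorial : ℝ)) +
      256 * Real.log v := by
    unfold wv
    rw [Real.log_mul (by positivity) (by positivity), Real.log_mul (by positivity) (by positivity),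
      Real.log_mul (by positivity) (by positivity), Real.log_pow, Real.log_pow, Real.log_pow,
      Real.log_mul (by norm_num) (by positivity),
      Real.log_div (by positivity) (by positivity)]
    norm_num
  have hc : (0 : ℝ) < n / 1000 := by positivity
  have hlc : Real.log ((n : ℝ) / 1000) = Real.log n - Real.log 1000 :=
    Real.log_div hn0.ne' (by norm_num)
  have hP : ∀ y : ℝ, 0 ≤ y → (n : ℝ) / 1000 * Psi (1000 * y / n) =
      Psi y - y * (Real.log n - Real.log 1000) := by
    intro y hy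
    have h1 := Pool.Agent.LZ.G4_scale hc (x := 1000 * y / n) (by positivity)
    have h2 : (n : ℝ) / 1000 * (1000 * y / n) = y := by
      field_simp
    rw [h2, hlc] at h1
    linarith
  have hQ : ∀ a : ℝ, 0 ≤ a → Psi (a * n) = n * Psi a + n * a * Real.log n := by
    intro a ha
    have h1 := Pool.Agent.LZ.G4_scale hn0 ha
    rwa [mul_comm (n : ℝ) a, mul_comm a (n : ℝ)] at h1 ⊢
  have l1000 : Real.log 1000 = 3 * Real.log 2 + 3 * Real.log 5 := by
    rw [show (1000 : ℝ) = 2 ^ 3 * 5 ^ 3 by norm_num, Real.log_mul (by norm_num) (by norm_num),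
      Real.log_pow, Real.log_pow]; norm_num
  have l4 : Real.log 4 = 2 * Real.log 2 := by
    rw [show (4 : ℝ) = 2 ^ 2 by norm_num, Real.log_pow]; norm_num
  have hφ : (n : ℝ) * phi (1000 * (v : ℝ) / n) =
      64 * Psi ((4 * n : ℕ) : ℝ) - 64 * Psi ((v + 2 * n : ℕ) : ℝ) +
        64 * Psi ((v - 2 * n : ℕ) : ℝ) := by
    rw [c1]
    push_cast
    have p1 := hP (v + 2 * n) (by positivity)
    have p5 := hP (v - 2 * n) (by linarith)
    have g1 : 1000 * ((v : ℝ) + 2 * n) / n = 1000 * (v : ℝ) / n + 2000 := by field_simp; ring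
    have g5 : 1000 * ((v : ℝ) - 2 * n) / n = 1000 * (v : ℝ) / n - 2000 := by field_simp; ring
    rw [g1, l1000] at p1
    rw [g5, l1000] at p5
    rw [hQ 4 (by norm_num)]
    have q4 : Psi 4 = 4 * (2 * Real.log 2) - 4 := by rw [← l4]; rfl
    rw [q4]
    unfold phi
    linear_combination - 64 * p1 + 64 * p5
  have t0 : Real.log 2 ≤ Real.log ((n : ℝ) + v) := Real.log_le_log (by norm_num) (by
    have : (40 : ℝ) ≤ n := by exact_mod_cast hn
    linarith)
  have t00 : 0 ≤ Real.log 2 := Real.log_nonneg (by norm_num)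
  have t1 : Real.log v ≤ Real.log ((n : ℝ) + v) := Real.log_le_log hv0 (by linarith)
  have t10 : 0 ≤ Real.log (v : ℝ) := Real.log_nonneg (by linarith)
  have t3 : Real.log ((v : ℝ) - 2 * n) ≤ Real.log ((n : ℝ) + v) :=
    Real.log_le_log (by linarith) (by linarith)
  have t30 : 0 ≤ Real.log ((v : ℝ) - 2 * n) := Real.log_nonneg (by linarith)
  rw [hW, hφ]
  rw [abs_le] at e1 e3 e5 ⊢
  constructor <;> linarith [e1.1, e1.2, e3.1, e3.2, e5.1, e5.2]

end

end Pool.Agent.Run7.h617.T
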