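import Pool.Agent.Run7.h617.T.G3

/-! T-G6c: the cross energies cancel (port of `Dim7/G6c.lean` and `Dim7/G0.lean`). -/

open Polynomial Pool.Agent.H337R2 Filter Topology

namespace Pool.Agent.Run7.h617.T

open Pool.Agent.Run7.h851.T

noncomputable section

namespace G6c

/-! ### the nodes -/

theorem disjX' : ∀ g < 72, ∀ h < 72, g < 20 ∨ h < 20 ∨ g = h ∨
    bb g + (cc g : ℤ) ≤ bb h ∨ bb h + (cc h : ℤ) ≤ bb g := by decide +kernel

theorem disjZ' : ∀ g < 96, ∀ h < 96, g < 72 ∨ h < 72 ∨ g = h ∨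
    bb g + (cc g : ℤ) ≤ bb h ∨ bb h + (cc h : ℤ) ≤ bb g := by decide +kernel

theorem disjX (g : ℕ) (hg : g < 72) (h : ℕ) (hh : h < 72) (g0 : 20 ≤ g) (h0 : 20 ≤ h)
    (hne : g ≠ h) : bb g + (cc g : ℤ) ≤ bb h ∨ bb h + (cc h : ℤ) ≤ bb g := by
  rcases disjX' g hg h hh with h1 | h1 | h1 | h1
  · omega
  · omega
  · exact absurd h1 hne
  · exact h1

theorem disjZ (g : ℕ) (hg : g < 96) (h : ℕ) (hh : h < 96) (g0 : 72 ≤ g) (h0 : 72 ≤ h)
    (hne : g ≠ h) : bb g + (cc g : ℤ) ≤ bb h ∨ bb h + (cc h : ℤ) ≤ bb g := by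
  rcases disjZ' g hg h hh with h1 | h1 | h1 | h1
  · omega
  · omega
  · exact absurd h1 hne
  · exact h1

theorem br2 : ∀ g < 96, 20 ≤ g → 0 ≤ bb g ∧ (bb g + (cc g : ℤ) ≤ 2000 ∨ 22000 ≤ bb g) := by
  decide +kernel

theorem bd : ∀ g < 96, 0 ≤ bb g ∧ bb g + (cc g : ℤ) ≤ 33180 := by
  decide +kernel

theorem div_lt {n i k : ℕ} (hn : 40 ≤ n) (hi : i < k * n - k) : i / (n - 1) < k := by
  rw [Nat.div_lt_iff_lt_mul (by omega), Nat.mul_sub, Nat.mul_one]
  exact hi

/-- a node of the saturated part -/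
theorem nd_sat {n i : ℕ} (h : i < 20 * n - 1) : nd n i = 1000 * (2 * n + 1 + i) := by
  unfold nd
  rw [if_pos h]

/-- a node of the other part -/
theorem nd_brick {n i : ℕ} (h : 20 * n - 1 ≤ i) :
    nd n i = bb (i / (n - 1)) * n + cc (i / (n - 1)) * ((i % (n - 1) : ℕ) : ℤ) := by
  unfold nd
  rw [if_neg (by omega)]

theorem brick {n i : ℕ} (hn : 40 ≤ n) (h : 20 * n - 1 ≤ i) (hi : i < 96 * n - 96) :
    bb (i / (n - 1)) * n ≤ nd n i ∧ nd n i < (bb (i / (n - 1)) + (cc (i / (n - 1)) : ℤ)) * n := by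
  have hg := div_lt hn hi
  have hc := (G3.G3_bd _ hg).2.2.1
  have hr : i % (n - 1) < n := (Nat.mod_lt _ (by omega)).trans_le (by omega)
  have hr' : ((i % (n - 1) : ℕ) : ℤ) < n := by exact_mod_cast hr
  have hr0 : (0 : ℤ) ≤ ((i % (n - 1) : ℕ) : ℤ) := Int.natCast_nonneg _
  have hc' : (1 : ℤ) ≤ (cc (i / (n - 1)) : ℤ) := by exact_mod_cast hc
  rw [nd_brick h]
  constructor
  · nlinarith
  · nlinarith

theorem div_ge {n i : ℕ} (hn : 40 ≤ n) (h : 20 * n - 1 ≤ i) : 20 ≤ i / (n - 1) := by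
  rw [Nat.le_div_iff_mul_le (by omega)]
  omega

theorem nd_nonneg {n i : ℕ} (hn : 40 ≤ n) (hi : i < 96 * n - 96) : 0 ≤ nd n i := by
  by_cases h : i < 20 * n - 1
  · rw [nd_sat h]
    positivity
  · push Not at h
    have h1 := (br2 _ (div_lt hn hi) (div_ge hn h)).1
    have h2 := (brick hn h hi).1
    have hn' : (0 : ℤ) ≤ n := Int.natCast_nonneg _
    exact (mul_nonneg h1 hn').trans h2

/-- the saturated nodes are different from the others -/
theorem cross {n i j : ℕ} (hn : 40 ≤ n) (hi : i < 20 * n - 1) (h : 20 * n - 1 ≤ j)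
    (hj : j < 96 * n - 96) : nd n i ≠ nd n j := by
  intro he
  have e1 := nd_sat hi
  have hiz : (i : ℤ) + 2 ≤ 20 * n := by exact_mod_cast (by omega : i + 2 ≤ 20 * n)
  have hi0 : (0 : ℤ) ≤ (i : ℤ) := Int.natCast_nonneg _
  have hn' : (0 : ℤ) ≤ n := Int.natCast_nonneg _
  have h2 := brick hn h hj
  rcases (br2 _ (div_lt hn hj) (div_ge hn h)).2 with h3 | h3
  · have := mul_le_mul_of_nonneg_right h3 hn'
    linarith [h2.2]
  · have := mul_le_mul_of_nonneg_right h3 hn'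
    linarith [h2.1]

theorem brick_inj {n i j : ℕ} (hn : 40 ≤ n) (hi2 : 20 * n - 1 ≤ i) (hj2 : 20 * n - 1 ≤ j)
    (hi : i < 96 * n - 96) (hj : j < 96 * n - 96)
    (hd : i / (n - 1) ≠ j / (n - 1) →
      bb (i / (n - 1)) + (cc (i / (n - 1)) : ℤ) ≤ bb (j / (n - 1)) ∨
      bb (j / (n - 1)) + (cc (j / (n - 1)) : ℤ) ≤ bb (i / (n - 1)))
    (hij : nd n i = nd n j) : i = j := by
  have hn' : (1 : ℤ) ≤ n := by exact_mod_cast (by omega : 1 ≤ n)
  have bi := brick hn hi2 hi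
  have bj := brick hn hj2 hj
  have hgj := div_lt hn hj
  by_cases hg : i / (n - 1) = j / (n - 1)
  · have h1 : nd n i = nd n j := hij
    rw [nd_brick hi2, nd_brick hj2, hg] at h1
    have hc : (cc (j / (n - 1)) : ℤ) ≠ 0 := by
      have := (G3.G3_bd _ hgj).2.2.1
      have h2 : (1 : ℤ) ≤ (cc (j / (n - 1)) : ℤ) := by exact_mod_cast this
      omega
    have h3 : (cc (j / (n - 1)) : ℤ) * ((i % (n - 1) : ℕ) : ℤ) =
        (cc (j / (n - 1)) : ℤ) * ((j % (n - 1) : ℕ) : ℤ) := by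
      linarith
    have h4 := mul_left_cancel₀ hc h3
    have h5 : i % (n - 1) = j % (n - 1) := by exact_mod_cast h4
    rw [← Nat.div_add_mod i (n - 1), ← Nat.div_add_mod j (n - 1), hg, h5]
  · exfalso
    rcases hd hg with h | h
    · have h1 : (bb (i / (n - 1)) + (cc (i / (n - 1)) : ℤ)) * n ≤ bb (j / (n - 1)) * n :=
        mul_le_mul_of_nonneg_right h (by omega)
      linarith [bi.2, bj.1]
    · have h1 : (bb (j / (n - 1)) + (cc (j / (n - 1)) : ℤ)) * n ≤ bb (i / (n - 1)) * n :=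
        mul_le_mul_of_nonneg_right h (by omega)
      linarith [bj.2, bi.1]

theorem inj_row {n i j : ℕ} (hn : 40 ≤ n) (hi : i < 72 * n - 72) (hj : j < 72 * n - 72)
    (hij : nd n i = nd n j) : i = j := by
  by_cases hi2 : i < 20 * n - 1
  · by_cases hj2 : j < 20 * n - 1
    · rw [nd_sat hi2, nd_sat hj2] at hij
      have : (i : ℤ) = j := by linarith
      exact_mod_cast this
    · push Not at hj2
      exact absurd hij (cross hn hi2 hj2 (by omega))
  · push Not at hi2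
    by_cases hj2 : j < 20 * n - 1
    · exact absurd hij.symm (cross hn hj2 hi2 (by omega))
    · push Not at hj2
      exact brick_inj hn hi2 hj2 (by omega) (by omega)
        (disjX _ (div_lt hn hi) _ (div_lt hn hj) (div_ge hn hi2) (div_ge hn hj2)) hij

theorem inj_col {n i j : ℕ} (hn : 40 ≤ n) (hi1 : 72 * n - 72 ≤ i) (hj1 : 72 * n - 72 ≤ j)
    (hi : i < 96 * n - 96) (hj : j < 96 * n - 96) (hij : nd n i = nd n j) : i = j := by
  have hge : ∀ k, 72 * n - 72 ≤ k → 72 ≤ k / (n - 1) := by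
    intro k hk
    rw [Nat.le_div_iff_mul_le (by omega)]
    omega
  exact brick_inj hn (by omega) (by omega) hi hj
    (disjZ _ (div_lt hn hi) _ (div_lt hn hj) (hge _ hi1) (hge _ hj1)) hij

theorem nd_le {n i : ℕ} (hn : 40 ≤ n) (hi : i < 96 * n - 96) : nd n i ≤ 33180 * n := by
  have h3 : (0 : ℤ) ≤ n := Nat.cast_nonneg _
  by_cases h : i < 20 * n - 1
  · rw [nd_sat h]
    have h2 : (i : ℤ) + 1 < 20 * n := by exact_mod_cast (by omega : i + 1 < 20 * n)
    linarith
  · push Not at h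
    have h1 := (brick hn h hi).2
    have h2 := (bd _ (div_lt hn hi)).2
    have h4 := mul_le_mul_of_nonneg_right h2 h3
    linarith

/-! ### the energies -/

/-- the pair energy -/
def a (n i j : ℕ) : ℝ := Real.log (((nd n i - nd n j : ℤ) : ℝ) / 1000) +
  Real.log (((nd n i + nd n j : ℤ) : ℝ) / 1000)

theorem a_symm (n i j : ℕ) : a n i j = a n j i := by
  unfold a
  rw [add_comm (nd n i) (nd n j)]
  congr 1
  rw [← Real.log_abs, ← Real.log_abs (((nd n j - nd n i : ℤ) : ℝ) / 1000)]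
  congr 1
  push_cast
  rw [← abs_neg]
  congr 1
  ring

theorem Lp_eq (n : ℕ) (s : Finset ℕ) (i : ℕ) : Lp n s (nd n i) = ∑ j ∈ s, a n i j := rfl

theorem zq_sub (n i j : ℕ) : |((zq n i - zq n j : ℚ) : ℝ)| =
    |(((nd n i - nd n j : ℤ) : ℝ) / 1000) * (((nd n i + nd n j : ℤ) : ℝ) / 1000)| := by
  unfold zq
  push_cast
  congr 1
  ring

theorem a_self_le {n : ℕ} (hn : 40 ≤ n) {i : ℕ} (hi : i < 96 * n - 96) :
    a n i i ≤ 2 * Real.log (400 * n) := by
  have h1 := nd_nonneg hn hi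
  have h2 := nd_le hn hi
  have hnR : (40 : ℝ) ≤ n := by exact_mod_cast hn
  have h2log : 2 * Real.log (400 * (n : ℝ)) = Real.log ((400 * (n : ℝ)) ^ 2) := by
    rw [Real.log_pow]
    norm_num
  have hL : 0 ≤ Real.log (400 * (n : ℝ)) := Real.log_nonneg (by linarith)
  unfold a
  rw [sub_self, Int.cast_zero, zero_div, Real.log_zero, zero_add]
  rcases h1.eq_or_lt with h | h
  · rw [← h]
    simp only [add_zero, Int.cast_zero, zero_div, Real.log_zero]
    linarith
  · have h3 : (0 : ℝ) < nd n i := by exact_mod_cast h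
    have h4 : (nd n i : ℝ) ≤ 33180 * n := by exact_mod_cast h2
    rw [h2log]
    refine Real.log_le_log ?_ ?_
    · push_cast
      linarith
    · push_cast
      nlinarith

theorem log_VD {n : ℕ} (hn : 40 ≤ n) {s : Finset ℕ} (hs : ∀ i ∈ s, i < 96 * n - 96)
    (hinj : ∀ i ∈ s, ∀ j ∈ s, nd n i = nd n j → i = j) :
    Real.log (VD s (zq n)) = ∑ i ∈ s, ∑ j ∈ s, a n i j - ∑ i ∈ s, a n i i := by
  have hne0 : ∀ i ∈ s, ∀ j ∈ s.erase i, ((nd n i - nd n j : ℤ) : ℝ) / 1000 ≠ 0 ∧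
      ((nd n i + nd n j : ℤ) : ℝ) / 1000 ≠ 0 := by
    intro i hi j hj
    have hj' := Finset.mem_of_mem_erase hj
    have h0 : nd n i ≠ nd n j := fun h =>
      (Finset.mem_erase.1 hj).1 (hinj i hi j hj' h).symm
    have h1 := nd_nonneg hn (hs i hi)
    have h2 := nd_nonneg hn (hs j hj')
    constructor
    · refine div_ne_zero ?_ (by norm_num)
      intro h
      have h3 : nd n i - nd n j = 0 := by exact_mod_cast h
      omega
    · refine div_ne_zero ?_ (by norm_num)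
      intro h
      have h3 : nd n i + nd n j = 0 := by exact_mod_cast h
      omega
  have hne : ∀ i ∈ s, ∀ j ∈ s.erase i, |((zq n i - zq n j : ℚ) : ℝ)| ≠ 0 := by
    intro i hi j hj
    rw [zq_sub]
    exact abs_ne_zero.2 (mul_ne_zero (hne0 i hi j hj).1 (hne0 i hi j hj).2)
  have hVD : VD s (zq n) = ∏ i ∈ s, ∏ j ∈ s.erase i, |((zq n i - zq n j : ℚ) : ℝ)| := rfl
  rw [hVD, Real.log_prod fun i hi => Finset.prod_ne_zero_iff.2 (hne i hi),
    ← Finset.sum_sub_distrib]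
  refine Finset.sum_congr rfl fun i hi => ?_
  rw [Real.log_prod (hne i hi)]
  have h1 : ∑ j ∈ s, a n i j = ∑ j ∈ s.erase i, a n i j + a n i i :=
    (Finset.sum_erase_add s (fun j => a n i j) hi).symm
  rw [h1, add_sub_cancel_right]
  refine Finset.sum_congr rfl fun j hj => ?_
  rw [zq_sub, Real.log_abs, Real.log_mul (hne0 i hi j hj).1 (hne0 i hi j hj).2]
  rfl

end G6c

open G6c in
/-- cross energies cancel: `½ log` of the products -/
theorem t_G6_cross : St_G6_cross := by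
  intro n hn
  rw [log_VD hn (fun i hi => by have := Finset.mem_range.1 hi; omega)
      (fun i hi j hj => inj_row hn (Finset.mem_range.1 hi) (Finset.mem_range.1 hj)),
    log_VD hn (fun i hi => by have := Finset.mem_range.1 hi; omega)
      (fun i hi j hj => inj_row hn (by have := Finset.mem_range.1 hi; omega)
        (by have := Finset.mem_range.1 hj; omega)),
    log_VD hn (fun i hi => (Finset.mem_Ico.1 hi).2)
      (fun i hi j hj => inj_col hn (Finset.mem_Ico.1 hi).1 (Finset.mem_Ico.1 hj).1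
        (Finset.mem_Ico.1 hi).2 (Finset.mem_Ico.1 hj).2)]
  simp only [Lp_eq]
  have hnR : (40 : ℝ) ≤ n := by exact_mod_cast hn
  have hL : 0 ≤ Real.log (400 * (n : ℝ)) := Real.log_nonneg (by linarith)
  have hd : ∀ s : Finset ℕ, (∀ i ∈ s, i < 96 * n - 96) →
      ∑ i ∈ s, a n i i ≤ (s.card : ℝ) * (2 * Real.log (400 * n)) := by
    intro s hs
    calc ∑ i ∈ s, a n i i ≤ ∑ _i ∈ s, 2 * Real.log (400 * n) :=
          Finset.sum_le_sum fun i hi => a_self_le hn (hs i hi)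
      _ = (s.card : ℝ) * (2 * Real.log (400 * n)) := by
          rw [Finset.sum_const, nsmul_eq_mul]
  have d1 := hd (Finset.range (72 * n - 72)) (fun i hi => by
    have := Finset.mem_range.1 hi; omega)
  have d2 := hd (Finset.range (24 * n - 24)) (fun i hi => by
    have := Finset.mem_range.1 hi; omega)
  have d3 := hd (Finset.Ico (72 * n - 72) (96 * n - 96)) (fun i hi => (Finset.mem_Ico.1 hi).2)
  have b1 : ((Finset.range (72 * n - 72)).card : ℝ) ≤ 72 * n := by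
    rw [Finset.card_range]
    exact_mod_cast (by omega : 72 * n - 72 ≤ 72 * n)
  have b2 : ((Finset.range (24 * n - 24)).card : ℝ) ≤ 24 * n := by
    rw [Finset.card_range]
    exact_mod_cast (by omega : 24 * n - 24 ≤ 24 * n)
  have b3 : ((Finset.Ico (72 * n - 72) (96 * n - 96)).card : ℝ) ≤ 24 * n := by
    rw [Nat.card_Ico]
    exact_mod_cast (by omega : 96 * n - 96 - (72 * n - 72) ≤ 24 * n)
  have hL2 : 0 ≤ 2 * Real.log (400 * (n : ℝ)) := by linarith
  have c1 := d1.trans (mul_le_mul_of_nonneg_right b1 hL2)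
  have c2 := d2.trans (mul_le_mul_of_nonneg_right b2 hL2)
  have c3 := d3.trans (mul_le_mul_of_nonneg_right b3 hL2)
  have hnL : 0 ≤ (n : ℝ) * Real.log (400 * n) := by positivity
  have hU : ∀ f : ℕ → ℝ, ∑ i ∈ Finset.range (72 * n - 72), f i =
      ∑ i ∈ Finset.range (20 * n - 1), f i +
      ∑ i ∈ Finset.Ico (20 * n - 1) (24 * n - 24), f i +
      ∑ i ∈ Finset.Ico (24 * n - 24) (72 * n - 72), f i := by
    intro f
    rw [Finset.sum_range_add_sum_Ico f (by omega : 20 * n - 1 ≤ 24 * n - 24),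
      Finset.sum_range_add_sum_Ico f (by omega : 24 * n - 24 ≤ 72 * n - 72)]
  have hV : ∀ f : ℕ → ℝ, ∑ i ∈ Finset.range (24 * n - 24), f i =
      ∑ i ∈ Finset.range (20 * n - 1), f i +
      ∑ i ∈ Finset.Ico (20 * n - 1) (24 * n - 24), f i := by
    intro f
    rw [Finset.sum_range_add_sum_Ico f (by omega : 20 * n - 1 ≤ 24 * n - 24)]
  have hW : ∀ f : ℕ → ℝ, ∑ i ∈ Finset.Ico (20 * n - 1) (72 * n - 72), f i =
      ∑ i ∈ Finset.Ico (20 * n - 1) (24 * n - 24), f i +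
        ∑ i ∈ Finset.Ico (24 * n - 24) (72 * n - 72), f i := by
    intro f
    rw [Finset.sum_Ico_consecutive f (by omega) (by omega)]
  have hsw : ∀ s t : Finset ℕ, ∑ i ∈ s, ∑ j ∈ t, a n i j = ∑ i ∈ t, ∑ j ∈ s, a n i j := by
    intro s t
    rw [Finset.sum_comm]
    exact Finset.sum_congr rfl fun i _ => Finset.sum_congr rfl fun j _ => a_symm n _ _
  rw [hU] at c1
  rw [hV] at c2
  simp only [hU, hV, hW, Finset.sum_add_distrib, Finset.sum_sub_distrib]
  rw [hsw (Finset.Ico (20 * n - 1) (24 * n - 24)) (Finset.range (20 * n - 1)),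
    hsw (Finset.Ico (24 * n - 24) (72 * n - 72)) (Finset.range (20 * n - 1)),
    hsw (Finset.Ico (24 * n - 24) (72 * n - 72)) (Finset.Ico (20 * n - 1) (24 * n - 24))]
  linarith

end

end Pool.Agent.Run7.h617.T
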